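import Pool.Agent.H66.FA.T

/-!
# fab_modules, row TRC: the trace of the third derivative
-/

set_option autoImplicit false

open Matrix

namespace Pool.Agent.H86.FAB.TRC

open Pool.Agent.H63.Fins MeasureTheory Filter Topology Pool.Agent.H66.FA

theorem pf_TRC (h2 : T_REG) (h3 : T_JAC) : T_TRC := by
  intro n L d hL hd y v hy
  obtain ⟨-, -, -, hsm, -, -, hR⟩ := h2 n L hL
  obtain ⟨-, -, -, hpos, -⟩ := hR y hy
  have hopen : IsOpen {y : V n | y ≠ 0} := isOpen_ne
  have hdiff : ∀ i j, DifferentiableAt ℝ (fun z => gm L z i j) y := fun i j =>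
    ((hsm (ee i) (ee j)).contDiffAt (hopen.mem_nhds hy)).differentiableAt (by simp)
  -- the line through `y` with direction `v`
  have hline : HasDerivAt (fun t : ℝ => y + t • v) v 0 := by
    simpa using ((hasDerivAt_id (0 : ℝ)).smul_const v).const_add y
  have hder : ∀ i j, HasDerivAt (fun s : ℝ => gm L (y + s • v) i j)
      ((Matrix.of fun i j => fderiv ℝ (fun z => gm L z i j) y v) i j) 0 := by
    intro i j
    have h4 : HasFDerivAt (fun z => gm L z i j) (fderiv ℝ (fun z => gm L z i j) y)
        (y + (0 : ℝ) • v) := by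
      rw [zero_smul, add_zero]
      exact (hdiff i j).hasFDerivAt
    exact h4.comp_hasDerivAt (0 : ℝ) hline
  have hdet0 : (gm L (y + (0 : ℝ) • v)).det ≠ 0 := by
    rw [zero_smul, add_zero]
    exact hpos.ne'
  have hJ := h3 n (fun s => gm L (y + s • v)) (Matrix.of fun i j =>
    fderiv ℝ (fun z => gm L z i j) y v) 0 hder hdet0
  have hnear : ∀ᶠ s : ℝ in 𝓝 0, y + s • v ≠ 0 := by
    have hc : ContinuousAt (fun s : ℝ => y + s • v) 0 := hline.continuousAt
    refine hc.eventually_ne ?_
    rw [zero_smul, add_zero]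
    exact hy
  have hconst : HasDerivAt (fun s : ℝ => (gm L (y + s • v)).det) 0 0 := by
    refine (hasDerivAt_const (0 : ℝ) d).congr_of_eventuallyEq ?_
    filter_upwards [hnear] with s hs
    exact hd _ hs
  have huniq := hJ.unique hconst
  simp only [zero_smul, add_zero] at huniq
  have htr := (mul_eq_zero.mp huniq).resolve_left hpos.ne'
  have hsymm : ∀ z : V n, z ≠ 0 → ∀ i j, gm L z j i = gm L z i j := by
    intro z hz i j
    obtain ⟨-, -, hpd, -⟩ := hR z hz
    have := hpd.1.apply i j
    simpa using this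
  have hsd : ∀ i j, fderiv ℝ (fun z => gm L z j i) y v = fderiv ℝ (fun z => gm L z i j) y v := by
    intro i j
    have : (fun z => gm L z j i) =ᶠ[𝓝 y] fun z => gm L z i j := by
      filter_upwards [hopen.mem_nhds hy] with z hz
      exact hsymm z hz i j
    rw [this.fderiv_eq]
  rw [Matrix.trace] at htr
  rw [← htr]
  refine Finset.sum_congr rfl fun i _ => ?_
  rw [Matrix.diag_apply, Matrix.mul_apply]
  refine Finset.sum_congr rfl fun j _ => ?_
  rw [Matrix.of_apply, hsd]
  rfl

end Pool.Agent.H86.FAB.TRC
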