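import Pool.Agent.H66.FA.T

/-!
# fab_modules, row RW: negative Ricci scalar
-/

set_option autoImplicit false

open Matrix

namespace Pool.Agent.H86.FAB.RW

open Pool.Agent.H63.Fins MeasureTheory Filter Topology Pool.Agent.H66.FA

theorem pf_RW (h1 : T_REG) (h2 : T_RIC) (h3 : T_ML) (h4 : T_ISR) (h5 : T_ACC) : T_RW := by
  intro m B E F hE hF hinv hric
  have hML : IsML (fun y => F 0 y ^ 2 / 2) := (h3 (m + 1) F hF 0).1
  refine h5 m B E _ hML hE fun v hv hv0 hd => ?_
  have hR := (h4 m B E F hE hF hinv).1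
  set L : V (m + 1) → ℝ := fun y => F 0 y ^ 2 / 2 with hL
  set h : ℝ → ℝ := fun t => L (E t v) with hh
  have hE0 : E 0 v = v := hE.zero v
  have hder0 : HasDerivAt h (d1 L v (B v)) 0 := by
    have h6 : HasFDerivAt L (fderiv ℝ L (E 0 v)) (E 0 v) := by
      rw [hE0]
      exact ((h1 (m + 1) L hML).2.2.2.2.2.2 v hv).1
    have h7 := h6.comp_hasDerivAt (0 : ℝ) (hE.der 0 v)
    rw [hE0] at h7
    exact h7
  have hneg : HasDerivAt (fun s : ℝ => h (-s)) (-(d1 L v (B v))) 0 := by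
    have h8 : HasDerivAt h (d1 L v (B v)) (-0) := by
      rw [neg_zero]
      exact hder0
    have h9 := HasDerivAt.scomp (0 : ℝ) h8 (hasDerivAt_neg (0 : ℝ))
    rw [neg_one_smul] at h9
    exact h9
  have hz : deriv (fun s : ℝ => h (-s)) 0 = 0 := by
    rw [hneg.deriv, hd, neg_zero]
  have h10 := h2 m F (fun s y => F 0 (E (-s) y) ^ 2 / 2) hR v hv hv0 hz (hric v hv hv0)
  have h11 : deriv (deriv fun s : ℝ => h (-s)) 0 = deriv (deriv h) 0 := by
    have e1 : (deriv fun s : ℝ => h (-s)) = fun s => -(deriv h (-s)) := by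
      funext s
      rw [deriv_comp_neg]
    rw [e1, deriv.fun_neg, deriv_comp_neg, neg_neg, neg_zero]
  change 0 < deriv (deriv h) 0
  rw [← h11]
  exact h10

end Pool.Agent.H86.FAB.RW
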